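import Mathlib

/-!
# Iterated Rolle theorem and the mean value theorem for generalised Vandermonde determinants
-/

set_option autoImplicit false

namespace Pool.Agent.Y411.FB

open Polynomial Set

/-- Rolle's theorem, `D` times. -/
theorem rolle_iter (u v : ℝ) : ∀ (D : ℕ) (F : ℕ → ℝ → ℝ),
    (∀ i, ∀ x ∈ Icc u v, HasDerivAt (F i) (F (i + 1) x) x) →
    ∀ y : ℕ → ℝ, (∀ j ≤ D, y j ∈ Icc u v) → (∀ j < D, y j < y (j + 1)) →
    (∀ j ≤ D, F 0 (y j) = 0) → ∃ ξ ∈ Icc u v, F D ξ = 0 := by
  intro D
  induction D with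
  | zero => intro F _ y hy _ h0; exact ⟨y 0, hy 0 le_rfl, h0 0 le_rfl⟩
  | succ D ih =>
    intro F hF y hy hlt h0
    have key : ∀ j ≤ D, ∃ z, y j < z ∧ z < y (j + 1) ∧ F 1 z = 0 := by
      intro j hj
      have h1 := hlt j (by omega)
      have hsub : Icc (y j) (y (j + 1)) ⊆ Icc u v := by
        intro x hx
        exact ⟨(hy j (by omega)).1.trans hx.1, hx.2.trans (hy (j + 1) (by omega)).2⟩
      obtain ⟨z, hz, hz0⟩ := exists_hasDerivAt_eq_zero (f := F 0) (f' := F 1) h1
        (fun x hx => (hF 0 x (hsub hx)).continuousAt.continuousWithinAt)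
        (by rw [h0 j (by omega), h0 (j + 1) (by omega)])
        (fun x hx => hF 0 x (hsub (Ioo_subset_Icc_self hx)))
      exact ⟨z, hz.1, hz.2, hz0⟩
    choose! z hz1 hz2 hz3 using key
    refine ih (fun i => F (i + 1)) (fun i x hx => hF (i + 1) x hx) z ?_ ?_ ?_
    · intro j hj
      exact ⟨(hy j (by omega)).1.trans (hz1 j hj).le, (hz2 j hj).le.trans (hy (j + 1) (by omega)).2⟩
    · intro j hj
      exact (hz2 j hj.le).trans (hz1 (j + 1) (by omega))
    · intro j hj
      exact hz3 j hj

/-- The derivatives of a polynomial, as real functions. -/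
theorem hasDerivAt_iter (P : ℝ[X]) (i : ℕ) (x : ℝ) :
    HasDerivAt (fun x => (derivative^[i] P).eval x) ((derivative^[i + 1] P).eval x) x := by
  rw [Function.iterate_succ_apply']
  exact (derivative^[i] P).hasDerivAt x

theorem iter_const (P : ℝ[X]) (D : ℕ) (h : P.natDegree ≤ D) (x : ℝ) :
    (derivative^[D] P).eval x = (D.factorial : ℝ) * P.coeff D := by
  have h1 : derivative^[D] P = C ((D.factorial : ℝ) * P.coeff D) := by
    ext m
    rw [coeff_iterate_derivative, coeff_C]
    split_ifs with hm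
    · subst hm
      simp [Nat.descFactorial_self]
    · have : P.coeff (m + D) = 0 := coeff_eq_zero_of_natDegree_lt (by omega)
      rw [this, smul_zero]
  rw [h1, eval_C]

/-- The matrix with rows `1, y, …, y ^ (D - 1), g(y)`. -/
def gv (D : ℕ) (y g : Fin (D + 1) → ℝ) : Matrix (Fin (D + 1)) (Fin (D + 1)) ℝ :=
  Matrix.of fun i j => if (j : ℕ) < D then y i ^ (j : ℕ) else g i

theorem det_gv_poly (D : ℕ) (y : Fin (D + 1) → ℝ) (P : ℝ[X]) (h : P.natDegree ≤ D) :
    (gv D y fun i => P.eval (y i)).det = P.coeff D * (Matrix.vandermonde y).det := by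
  let B : Matrix (Fin (D + 1)) (Fin (D + 1)) ℝ :=
    Matrix.of fun l j => if (j : ℕ) < D then (if l = j then 1 else 0) else P.coeff l
  have hB : B.det = P.coeff D := by
    rw [Matrix.det_of_isUpperTriangular]
    · rw [Fin.prod_univ_castSucc]
      simp [B]
    · intro l j hlj
      have h1 : (j : ℕ) < l := hlj
      have h2 : (l : ℕ) < D + 1 := l.2
      have h3 : l ≠ j := by rintro rfl; omega
      simp only [B, Matrix.of_apply]
      rw [if_pos (by omega), if_neg h3]
  have hA : (gv D y fun i => P.eval (y i)) = Matrix.vandermonde y * B := by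
    ext i j
    rw [Matrix.mul_apply]
    simp only [gv, B, Matrix.of_apply, Matrix.vandermonde_apply]
    split_ifs with hj
    · rw [Finset.sum_eq_single j]
      · simp
      · intro l _ hl; simp [hl]
      · intro h; exact absurd (Finset.mem_univ j) h
    · rw [eval_eq_sum_range' (lt_of_le_of_lt h (Nat.lt_succ_self D)), ← Fin.sum_univ_eq_sum_range
        (fun l => P.coeff l * y i ^ l) (D + 1)]
      exact Finset.sum_congr rfl fun l _ => mul_comm _ _
  rw [hA, Matrix.det_mul, hB, mul_comm]

/-- Mean value theorem for the determinant of the matrix with rows `1, y, …, y ^ (D - 1), G(y)`. -/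
theorem det_mvt (D : ℕ) (u v : ℝ) (y : Fin (D + 1) → ℝ) (hy : StrictMono y)
    (hyI : ∀ j, y j ∈ Icc u v) (G : ℕ → ℝ → ℝ)
    (hG : ∀ i, ∀ x ∈ Icc u v, HasDerivAt (G i) (G (i + 1) x) x) :
    ∃ ξ ∈ Icc u v, (D.factorial : ℝ) * (gv D y fun i => G 0 (y i)).det =
      G D ξ * (Matrix.vandermonde y).det := by
  have hinj : Set.InjOn y (Finset.univ : Finset (Fin (D + 1))) := hy.injective.injOn
  let P : ℝ[X] := Lagrange.interpolate Finset.univ y (fun i => G 0 (y i))
  have hPev : ∀ i, P.eval (y i) = G 0 (y i) := fun i =>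
    Lagrange.eval_interpolate_at_node _ hinj (Finset.mem_univ i)
  have hPdeg : P.natDegree ≤ D := by
    have h1 : P.degree < (D + 1 : ℕ) := by
      have := Lagrange.degree_interpolate_lt (fun i => G 0 (y i)) hinj
      rwa [Finset.card_univ, Fintype.card_fin] at this
    rcases eq_or_ne P 0 with h0 | h0
    · rw [h0]; simp
    · rw [degree_eq_natDegree h0] at h1
      have : P.natDegree < D + 1 := by exact_mod_cast h1
      omega
  obtain ⟨ξ, hξ, h0⟩ := rolle_iter u v D (fun i x => G i x - (derivative^[i] P).eval x)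
    (fun i x hx => (hG i x hx).sub (hasDerivAt_iter P i x))
    (fun j => if h : j < D + 1 then y ⟨j, h⟩ else 0)
    (by
      intro j hj
      simp only [dif_pos (Nat.lt_succ_of_le hj)]
      exact hyI _)
    (by
      intro j hj
      simp only [dif_pos (show j < D + 1 by omega), dif_pos (show j + 1 < D + 1 by omega)]
      exact hy (by rw [Fin.lt_def]; simp))
    (by
      intro j hj
      simp only [dif_pos (Nat.lt_succ_of_le hj), Function.iterate_zero, id_eq]
      rw [hPev, sub_self])
  refine ⟨ξ, hξ, ?_⟩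
  have h1 : G D ξ = (D.factorial : ℝ) * P.coeff D := by
    rw [← iter_const P D hPdeg ξ]
    simpa [sub_eq_zero] using h0
  have h2 : (gv D y fun i => G 0 (y i)) = gv D y fun i => P.eval (y i) := by
    congr 1
    funext i
    exact (hPev i).symm
  rw [h2, det_gv_poly D y P hPdeg, h1]
  ring

end Pool.Agent.Y411.FB
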