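import Mathlib
import Pool.Agent.Y411.FB.Rolle

/-!
# Few `k`-th powers of the form `a ^ m + β` with exponents `m` in a short interval
-/

set_option autoImplicit false

namespace Pool.Agent.Y411.FB

open Set

/-- The derivatives of `x (1 + t y) ^ p`. -/
noncomputable def GG (x t p : ℝ) (i : ℕ) (y : ℝ) : ℝ :=
  x * ((∏ l ∈ Finset.range i, (p - l)) * t ^ i * (1 + t * y) ^ (p - i))

theorem base_pos {t y : ℝ} (ht : |t| ≤ 1 / 2) (hy : y ∈ Icc (0 : ℝ) 1) : 1 / 2 ≤ 1 + t * y := by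
  have h1 : |t * y| ≤ 1 / 2 := by
    rw [abs_mul, abs_of_nonneg hy.1]
    calc |t| * y ≤ 1 / 2 * 1 := mul_le_mul ht hy.2 hy.1 (by norm_num)
      _ = 1 / 2 := by norm_num
  have := neg_abs_le (t * y)
  linarith

theorem hasDerivAt_GG {x t p : ℝ} (ht : |t| ≤ 1 / 2) (i : ℕ) (y : ℝ) (hy : y ∈ Icc (0 : ℝ) 1) :
    HasDerivAt (GG x t p i) (GG x t p (i + 1) y) y := by
  have hb := base_pos ht hy
  have h1 : HasDerivAt (fun y => 1 + t * y) t y := by
    simpa using ((hasDerivAt_id y).const_mul t).const_add 1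
  have h2 := h1.rpow_const (p := p - i) (Or.inl (by linarith))
  have h3 := (h2.const_mul ((∏ l ∈ Finset.range i, (p - l)) * t ^ i)).const_mul x
  refine HasDerivAt.congr_deriv (f := GG x t p i) h3 ?_
  unfold GG
  rw [Finset.prod_range_succ, pow_succ]
  have : p - ((i + 1 : ℕ) : ℝ) = p - i - 1 := by push_cast; ring
  rw [this]
  ring

theorem GG_bound {x t p : ℝ} (hx : 0 ≤ x) (ht : |t| ≤ 1 / 2) (hp0 : 0 < p) (hp1 : p < 1) {D : ℕ}
    (hD : 1 ≤ D) {y : ℝ} (hy : y ∈ Icc (0 : ℝ) 1) :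
    |GG x t p D y| ≤ D.factorial * (x * (2 * |t|) ^ D) := by
  have hb := base_pos ht hy
  have hb0 : (0 : ℝ) < 1 + t * y := by linarith
  unfold GG
  rw [abs_mul, abs_of_nonneg hx, abs_mul, abs_mul, abs_pow, Finset.abs_prod,
    abs_of_pos (Real.rpow_pos_of_pos hb0 _)]
  have h1 : ∏ l ∈ Finset.range D, |p - (l : ℝ)| ≤ D.factorial := by
    rw [← Finset.prod_range_add_one_eq_factorial, Nat.cast_prod]
    apply Finset.prod_le_prod
    · intro i _; exact abs_nonneg _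
    · intro i _
      push_cast
      have : (0 : ℝ) ≤ i := Nat.cast_nonneg i
      rw [abs_le]
      constructor <;> linarith
  have hDr : (1 : ℝ) ≤ D := by exact_mod_cast hD
  have h2 : (1 + t * y) ^ (p - D) ≤ 2 ^ D := by
    calc (1 + t * y) ^ (p - D) ≤ (1 / 2 : ℝ) ^ (p - D) :=
          Real.rpow_le_rpow_of_nonpos (by norm_num) hb (by linarith)
      _ = 2 ^ (D - p) := by
          rw [one_div, Real.inv_rpow (by norm_num), ← Real.rpow_neg (by norm_num)]
          congr 1; ring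
      _ ≤ (2 : ℝ) ^ (D : ℝ) := Real.rpow_le_rpow_of_exponent_le (by norm_num) (by linarith)
      _ = 2 ^ D := Real.rpow_natCast _ _
  have h3 : 0 ≤ (1 + t * y) ^ (p - D) := (Real.rpow_pos_of_pos hb0 _).le
  calc x * ((∏ l ∈ Finset.range D, |p - (l : ℝ)|) * |t| ^ D * (1 + t * y) ^ (p - D))
      ≤ x * ((D.factorial : ℝ) * |t| ^ D * 2 ^ D) := by
        apply mul_le_mul_of_nonneg_left _ hx
        apply mul_le_mul _ h2 h3 (by positivity)
        exact mul_le_mul_of_nonneg_right h1 (by positivity)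
    _ = D.factorial * (x * (2 * |t|) ^ D) := by rw [mul_pow]; ring

theorem GG_ne {x t p : ℝ} (hx : 0 < x) (ht0 : t ≠ 0) (ht : |t| ≤ 1 / 2) (hp0 : 0 < p) (hp1 : p < 1)
    {D : ℕ} {y : ℝ} (hy : y ∈ Icc (0 : ℝ) 1) : GG x t p D y ≠ 0 := by
  have hb := base_pos ht hy
  have hb0 : (0 : ℝ) < 1 + t * y := by linarith
  unfold GG
  refine mul_ne_zero hx.ne' (mul_ne_zero (mul_ne_zero ?_ (pow_ne_zero _ ht0))
    (Real.rpow_pos_of_pos hb0 _).ne')
  rw [Finset.prod_ne_zero_iff]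
  intro l _
  rcases Nat.eq_zero_or_pos l with rfl | hl
  · simpa using hp0.ne'
  · have : (1 : ℝ) ≤ l := by exact_mod_cast hl
    intro h
    linarith

theorem vand_abs_le {D : ℕ} (y : Fin (D + 1) → ℝ) (hy : ∀ j, y j ∈ Icc (0 : ℝ) 1) :
    |(Matrix.vandermonde y).det| ≤ 1 := by
  rw [Matrix.det_vandermonde, Finset.abs_prod]
  apply Finset.prod_le_one
  · intro i _; exact abs_nonneg _
  · intro i _
    rw [Finset.abs_prod]
    apply Finset.prod_le_one
    · intro j _; exact abs_nonneg _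
    · intro j _
      rw [abs_le]
      constructor <;> linarith [(hy i).1, (hy i).2, (hy j).1, (hy j).2]

/-- The main lemma on `D + 1` `k`-th powers `a ^ (m + k h) + β`. -/
theorem core {a k D m H : ℕ} (ha : 2 ≤ a) (hk : 2 ≤ k) (hD : 1 ≤ D) (h : Fin (D + 1) → ℕ)
    (hh : StrictAnti h) (hH : ∀ j, h j ≤ H) (β : ℤ) (hβ0 : β ≠ 0) (hβ : 2 * |β| ≤ (a : ℤ) ^ m)
    (c : Fin (D + 1) → ℕ) (hc : ∀ j, (c j : ℤ) ^ k = (a : ℤ) ^ (m + k * h j) + β) :
    ((a : ℝ) ^ m) ^ (2 * D) ≤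
      (a : ℝ) ^ (2 * ((D + 1) * (H * (1 + k * (D - 1)))) + m) * (2 * |(β : ℝ)|) ^ (2 * D) := by
  have ha0 : (0 : ℝ) < a := by exact_mod_cast (by omega : 0 < a)
  have ha1 : (1 : ℝ) ≤ a := by exact_mod_cast (by omega : 1 ≤ a)
  have ha1' : (1 : ℝ) < a := by exact_mod_cast (by omega : 1 < a)
  obtain ⟨A, hA⟩ : ∃ A : ℝ, A = (a : ℝ) ^ m := ⟨_, rfl⟩
  have hA0 : 0 < A := by rw [hA]; positivity
  have hA1 : 1 ≤ A := by rw [hA]; exact one_le_pow₀ ha1
  obtain ⟨t, ht_def⟩ : ∃ t : ℝ, t = β / A := ⟨_, rfl⟩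
  have hk0 : (0 : ℝ) < k := by exact_mod_cast (by omega : 0 < k)
  have hk2 : (2 : ℝ) ≤ k := by exact_mod_cast hk
  obtain ⟨p, hp⟩ : ∃ p : ℝ, p = 1 / k := ⟨_, rfl⟩
  have hp0 : 0 < p := by rw [hp]; positivity
  have hp2 : p ≤ 1 / 2 := by rw [hp]; exact one_div_le_one_div_of_le (by norm_num) hk2
  have hp1 : p < 1 := by linarith
  have hkp : (k : ℝ) * p = 1 := by rw [hp]; field_simp
  obtain ⟨x, hx_def⟩ : ∃ x : ℝ, x = A ^ p := ⟨_, rfl⟩
  have hx0 : 0 < x := by rw [hx_def]; exact Real.rpow_pos_of_pos hA0 _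
  have hx2 : x ^ 2 ≤ A := by
    rw [hx_def, ← Real.rpow_natCast, ← Real.rpow_mul hA0.le]
    calc A ^ (p * (2 : ℕ)) ≤ A ^ (1 : ℝ) :=
          Real.rpow_le_rpow_of_exponent_le hA1 (by push_cast; linarith)
      _ = A := Real.rpow_one A
  have hβR : 2 * |(β : ℝ)| ≤ A := by rw [hA]; exact_mod_cast hβ
  have ht : |t| ≤ 1 / 2 := by
    rw [ht_def, abs_div, abs_of_pos hA0, div_le_iff₀ hA0]; linarith
  have ht0 : t ≠ 0 := by
    rw [ht_def]; exact div_ne_zero (by exact_mod_cast hβ0) hA0.ne'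
  -- the nodes
  let y : Fin (D + 1) → ℝ := fun j => ((a : ℝ) ^ (k * h j))⁻¹
  have hyI : ∀ j, y j ∈ Icc (0 : ℝ) 1 := by
    intro j
    exact ⟨by positivity, inv_le_one_of_one_le₀ (one_le_pow₀ ha1)⟩
  have hyM : StrictMono y := by
    intro i j hij
    have h1 : h j < h i := hh hij
    have h2 : k * h j < k * h i := Nat.mul_lt_mul_of_pos_left h1 (by omega)
    exact inv_strictAnti₀ (by positivity) (pow_lt_pow_right₀ ha1' h2)
  -- the integer matrix
  let w : Fin (D + 1) → ℕ := fun j => a ^ (h j * (1 + k * (D - 1)))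
  let M : Matrix (Fin (D + 1)) (Fin (D + 1)) ℤ := Matrix.of fun j i =>
    if (i : ℕ) < D then ((a ^ (h j + k * h j * (D - 1 - i)) : ℕ) : ℤ)
    else ((a ^ (k * h j * (D - 1)) * c j : ℕ) : ℤ)
  have hcj : ∀ j, (c j : ℝ) = x * (a : ℝ) ^ (h j) * (1 + t * y j) ^ p := by
    intro j
    have h1 : (c j : ℝ) ^ k = A * ((a : ℝ) ^ (h j)) ^ k * (1 + t * y j) := by
      have h2 : (c j : ℝ) ^ k = (a : ℝ) ^ (m + k * h j) + β := by exact_mod_cast hc j
      rw [h2, pow_add, ← hA, ht_def]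
      simp only [y]
      rw [show ((a : ℝ) ^ h j) ^ k = (a : ℝ) ^ (k * h j) by rw [← pow_mul, mul_comm]]
      have : (a : ℝ) ^ (k * h j) ≠ 0 := by positivity
      field_simp
    have hb := base_pos ht (hyI j)
    have h3 : (0 : ℝ) ≤ c j := Nat.cast_nonneg _
    calc (c j : ℝ) = ((c j : ℝ) ^ k) ^ p := by
          rw [← Real.rpow_natCast, ← Real.rpow_mul h3, hkp, Real.rpow_one]
      _ = (A * ((a : ℝ) ^ (h j)) ^ k * (1 + t * y j)) ^ p := by rw [h1]
      _ = A ^ p * (((a : ℝ) ^ (h j)) ^ k) ^ p * (1 + t * y j) ^ p := by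
          rw [Real.mul_rpow (by positivity) (by linarith), Real.mul_rpow (by positivity)
            (by positivity)]
      _ = x * (a : ℝ) ^ (h j) * (1 + t * y j) ^ p := by
          rw [hx_def, ← Real.rpow_natCast ((a : ℝ) ^ (h j)) k, ← Real.rpow_mul (by positivity),
            hkp, Real.rpow_one]
  have hM : (M.map (Int.cast : ℤ → ℝ)) =
      Matrix.diagonal (fun j => (w j : ℝ)) * gv D y fun i => GG x t p 0 (y i) := by
    ext j i
    rw [Matrix.diagonal_mul, Matrix.map_apply]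
    simp only [M, gv, Matrix.of_apply, w]
    split_ifs with hi
    · simp only [y]
      push_cast
      rw [inv_pow, ← pow_mul, ← div_eq_mul_inv, eq_div_iff (by positivity), ← pow_add]
      congr 1
      have h1 : D - 1 - (i : ℕ) + i = D - 1 := by omega
      calc h j + k * h j * (D - 1 - i) + k * h j * i
          = h j + k * h j * (D - 1 - i + i) := by ring
        _ = h j * (1 + k * (D - 1)) := by rw [h1]; ring
    · unfold GG
      push_cast
      rw [hcj j]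
      simp only [Finset.range_zero, Finset.prod_empty, pow_zero, one_mul, sub_zero]
      rw [show h j * (1 + k * (D - 1)) = k * h j * (D - 1) + h j by ring, pow_add]
      ring
  obtain ⟨ξ, hξ, hdet⟩ := det_mvt D 0 1 y hyM hyI (GG x t p)
    (fun i y hy => hasDerivAt_GG ht i y hy)
  have hDf : (0 : ℝ) < D.factorial := by exact_mod_cast Nat.factorial_pos D
  have hV0 : (Matrix.vandermonde y).det ≠ 0 := by
    rw [Matrix.det_vandermonde_ne_zero_iff]
    exact hyM.injective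
  have hdet0 : (gv D y fun i => GG x t p 0 (y i)).det ≠ 0 := by
    intro h0
    rw [h0, mul_zero] at hdet
    exact mul_ne_zero (GG_ne hx0 ht0 ht hp0 hp1 hξ) hV0 hdet.symm
  have hdetle : |(gv D y fun i => GG x t p 0 (y i)).det| ≤ x * (2 * |t|) ^ D := by
    have h1 : (D.factorial : ℝ) * |(gv D y fun i => GG x t p 0 (y i)).det| ≤
        D.factorial * (x * (2 * |t|) ^ D) := by
      calc (D.factorial : ℝ) * |(gv D y fun i => GG x t p 0 (y i)).det|
          = |GG x t p D ξ| * |(Matrix.vandermonde y).det| := by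
            rw [← abs_mul, ← hdet, abs_mul, abs_of_pos hDf]
        _ ≤ (D.factorial * (x * (2 * |t|) ^ D)) * 1 :=
            mul_le_mul (GG_bound hx0.le ht hp0 hp1 hD hξ) (vand_abs_le y hyI) (abs_nonneg _)
              (by positivity)
        _ = _ := mul_one _
    exact le_of_mul_le_mul_left h1 hDf
  have hMdet : ((M.det : ℤ) : ℝ) = (∏ j, (w j : ℝ)) * (gv D y fun i => GG x t p 0 (y i)).det := by
    have h1 : ((M.det : ℤ) : ℝ) = (M.map (Int.cast : ℤ → ℝ)).det := by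
      have := Int.cast_det (R := ℝ) M
      simpa using this
    rw [h1, hM, Matrix.det_mul, Matrix.det_diagonal]
  have hw : (∏ j, (w j : ℝ)) ≤ (a : ℝ) ^ ((D + 1) * (H * (1 + k * (D - 1)))) := by
    calc (∏ j, (w j : ℝ)) ≤ ∏ _j : Fin (D + 1), (a : ℝ) ^ (H * (1 + k * (D - 1))) := by
          apply Finset.prod_le_prod
          · intro j _; positivity
          · intro j _
            simp only [w]
            push_cast
            exact pow_le_pow_right₀ ha1 (Nat.mul_le_mul_right _ (hH j))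
      _ = _ := by
          rw [Finset.prod_const, Finset.card_univ, Fintype.card_fin, ← pow_mul, mul_comm]
  have hw0 : (0 : ℝ) < ∏ j, (w j : ℝ) := by
    apply Finset.prod_pos
    intro j _
    simp only [w]
    push_cast
    positivity
  have hM0 : M.det ≠ 0 := by
    intro h0
    rw [h0, Int.cast_zero] at hMdet
    exact mul_ne_zero hw0.ne' hdet0 hMdet.symm
  have hM1 : (1 : ℝ) ≤ |((M.det : ℤ) : ℝ)| := by
    exact_mod_cast Int.one_le_abs hM0
  obtain ⟨E, hE⟩ : ∃ E, E = (D + 1) * (H * (1 + k * (D - 1))) := ⟨_, rfl⟩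
  rw [← hE] at hw ⊢
  have hfin : (1 : ℝ) ≤ (a : ℝ) ^ E * (x * (2 * |t|) ^ D) := by
    calc (1 : ℝ) ≤ |((M.det : ℤ) : ℝ)| := hM1
      _ = (∏ j, (w j : ℝ)) * |(gv D y fun i => GG x t p 0 (y i)).det| := by
          rw [hMdet, abs_mul, abs_of_pos hw0]
      _ ≤ (a : ℝ) ^ E * (x * (2 * |t|) ^ D) := mul_le_mul hw hdetle (abs_nonneg _) (by positivity)
  have htA : |t| * A = |(β : ℝ)| := by
    rw [ht_def, abs_div, abs_of_pos hA0]; field_simp
  rw [← hA]
  calc A ^ (2 * D) = 1 ^ 2 * A ^ (2 * D) := by ring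
    _ ≤ ((a : ℝ) ^ E * (x * (2 * |t|) ^ D)) ^ 2 * A ^ (2 * D) := by
        apply mul_le_mul_of_nonneg_right _ (by positivity)
        exact pow_le_pow_left₀ (by norm_num) hfin 2
    _ = (a : ℝ) ^ (2 * E) * x ^ 2 * (2 * (|t| * A)) ^ (2 * D) := by
        rw [mul_pow, mul_pow, ← pow_mul, ← pow_mul, mul_comm E 2, mul_comm D 2]
        rw [show 2 * (|t| * A) = (2 * |t|) * A by ring, mul_pow (2 * |t|) A]
        ring
    _ = (a : ℝ) ^ (2 * E) * x ^ 2 * (2 * |(β : ℝ)|) ^ (2 * D) := by rw [htA]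
    _ ≤ (a : ℝ) ^ (2 * E) * A * (2 * |(β : ℝ)|) ^ (2 * D) := by
        apply mul_le_mul_of_nonneg_right _ (by positivity)
        exact mul_le_mul_of_nonneg_left hx2 (by positivity)
    _ = (a : ℝ) ^ (2 * E + m) * (2 * |(β : ℝ)|) ^ (2 * D) := by rw [pow_add, ← hA]

end Pool.Agent.Y411.FB
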