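import Mathlib
import Pool.Agent.Y411.FB.Core
import Pool.Agent.TH888.B1.Arch

/-!
# Blocks of exponents, uniqueness for large `k`, the bound for `k`
-/

set_option autoImplicit false

namespace Pool.Agent.Y411.FB

theorem two_mul_le_of_pow {a m q B : ℕ} (ha : 2 ≤ a) (hq : 1 ≤ q) (hqm : q ≤ m)
    (hB : B ^ q ≤ (a ^ m) ^ (q - 1)) : 2 * B ≤ a ^ m := by
  by_contra hcon
  push Not at hcon
  have h1 : (a ^ m) ^ q < (2 * B) ^ q := Nat.pow_lt_pow_left hcon (by omega)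
  have h2 : (2 * B) ^ q ≤ (a ^ m) ^ q := by
    calc (2 * B) ^ q = 2 ^ q * B ^ q := mul_pow _ _ _
      _ ≤ a ^ m * (a ^ m) ^ (q - 1) := by
          apply Nat.mul_le_mul _ hB
          calc 2 ^ q ≤ a ^ q := Nat.pow_le_pow_left ha q
            _ ≤ a ^ m := Nat.pow_le_pow_right (by omega) hqm
      _ = (a ^ m) ^ q := by
          rw [← pow_succ', Nat.sub_add_cancel hq]
  omega

/-- At most `q` exponents in a block and a residue class modulo `k`. -/
theorem few_in_block {a k q : ℕ} (ha : 2 ≤ a) (hk : 2 ≤ k) (hq : 1 ≤ q) (β : ℤ) (hβ0 : β ≠ 0)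
    (T : Finset ℕ) (r ℓ M₁ : ℕ) (hM : 2 * q * (q + 1) * ℓ + 2 * q < M₁)
    (hT1 : ∀ m ∈ T, M₁ ≤ m) (hT2 : ∀ m ∈ T, m % k = r)
    (hT3 : ∀ m ∈ T, ∃ c : ℕ, (c : ℤ) ^ k = (a : ℤ) ^ m + β)
    (hT4 : ∀ m ∈ T, β.natAbs ^ q ≤ (a ^ m) ^ (q - 1))
    (hT5 : ∀ m ∈ T, ∀ m' ∈ T, m' ≤ m + ℓ) : T.card ≤ q := by
  by_contra hcon
  push Not at hcon
  obtain ⟨T', hT', hcard⟩ := Finset.exists_subset_card_eq (show q + 1 ≤ T.card from hcon)
  let e := T'.orderEmbOfFin hcard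
  have heT : ∀ j, e j ∈ T := fun j => hT' (Finset.orderEmbOfFin_mem T' hcard j)
  obtain ⟨m, hm⟩ : ∃ m, m = e 0 := ⟨_, rfl⟩
  have hmT : m ∈ T := hm ▸ heT 0
  have hme : ∀ j, m ≤ e j := fun j => by
    rw [hm]; exact e.monotone (Fin.zero_le j)
  have hk0 : 0 < k := by omega
  have hdv : ∀ j, e j = m + k * ((e j - m) / k) := by
    intro j
    have h1 : k ∣ e j - m := by
      have := (Nat.modEq_iff_dvd' (hme j)).1 (show m ≡ e j [MOD k] by
        unfold Nat.ModEq; rw [hT2 _ hmT, hT2 _ (heT j)])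
      exact this
    rw [Nat.mul_div_cancel' h1]
    have := hme j
    omega
  choose c hc using fun j => hT3 (e j) (heT j)
  have hmq : q ≤ m := by have := hT1 m hmT; omega
  have hanti : StrictAnti fun j : Fin (q + 1) => (e (Fin.rev j) - m) / k := by
    intro i j hij
    have h1 : e (Fin.rev j) < e (Fin.rev i) := e.strictMono (Fin.rev_lt_rev.2 hij)
    have h2 := hdv (Fin.rev j)
    have h3 := hdv (Fin.rev i)
    by_contra h4
    push Not at h4
    have h5 := Nat.mul_le_mul_left k h4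
    omega
  have hcore := core ha hk hq (fun j => (e (Fin.rev j) - m) / k) (H := ℓ / k) hanti
    (by
      intro j
      apply Nat.div_le_div_right
      have := hT5 m hmT _ (heT (Fin.rev j))
      omega)
    β hβ0
    (by
      have h1 := two_mul_le_of_pow ha hq hmq (hT4 m hmT)
      have h2 : (β.natAbs : ℤ) = |β| := Int.natCast_natAbs β
      rw [← h2]
      exact_mod_cast h1)
    (fun j => c (Fin.rev j))
    (by
      intro j
      rw [hc (Fin.rev j)]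
      congr 2
      exact hdv (Fin.rev j))
  -- comparison of the exponents
  have h1 : (a ^ m) ^ (2 * q) ≤
      a ^ (2 * ((q + 1) * (ℓ / k * (1 + k * (q - 1)))) + m) * (2 * β.natAbs) ^ (2 * q) := by
    have h2 : |(β : ℝ)| = (β.natAbs : ℝ) := by
      rw [Nat.cast_natAbs, Int.cast_abs]
    rw [h2] at hcore
    exact_mod_cast hcore
  have h2 : (2 * β.natAbs) ^ (2 * q) ≤ a ^ (2 * q + 2 * ((q - 1) * m)) := by
    calc (2 * β.natAbs) ^ (2 * q) = 2 ^ (2 * q) * (β.natAbs ^ q) ^ 2 := by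
          rw [mul_pow, ← pow_mul, mul_comm q 2]
      _ ≤ a ^ (2 * q) * ((a ^ m) ^ (q - 1)) ^ 2 :=
          Nat.mul_le_mul (Nat.pow_le_pow_left ha _) (Nat.pow_le_pow_left (hT4 m hmT) 2)
      _ = a ^ (2 * q + 2 * ((q - 1) * m)) := by
          rw [pow_add, ← pow_mul, ← pow_mul]
          congr 2
          ring
  have h3 : a ^ (m * (2 * q)) ≤
      a ^ (2 * ((q + 1) * (ℓ / k * (1 + k * (q - 1)))) + m + (2 * q + 2 * ((q - 1) * m))) := by
    rw [pow_mul, pow_add a (2 * ((q + 1) * (ℓ / k * (1 + k * (q - 1)))) + m)]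
    exact h1.trans (Nat.mul_le_mul_left _ h2)
  have h4 := (Nat.pow_le_pow_iff_right (by omega : 1 < a)).1 h3
  have h5 : ℓ / k * (1 + k * (q - 1)) ≤ ℓ * q := by
    obtain ⟨q', rfl⟩ : ∃ q', q = q' + 1 := ⟨q - 1, by omega⟩
    calc ℓ / k * (1 + k * (q' + 1 - 1)) ≤ ℓ / k * (k * (q' + 1)) := by
          apply Nat.mul_le_mul_left
          rw [Nat.add_sub_cancel]
          nlinarith
      _ = (ℓ / k * k) * (q' + 1) := by ring
      _ ≤ ℓ * (q' + 1) := Nat.mul_le_mul_right _ (Nat.div_mul_le_self ℓ k)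
  have h6 : 2 * ((q + 1) * (ℓ / k * (1 + k * (q - 1)))) ≤ 2 * q * (q + 1) * ℓ := by
    calc 2 * ((q + 1) * (ℓ / k * (1 + k * (q - 1)))) ≤ 2 * ((q + 1) * (ℓ * q)) :=
          Nat.mul_le_mul_left _ (Nat.mul_le_mul_left _ h5)
      _ = 2 * q * (q + 1) * ℓ := by ring
  have h7 : m * (2 * q) = m + 2 * ((q - 1) * m) + m := by
    obtain ⟨q', rfl⟩ : ∃ q', q = q' + 1 := ⟨q - 1, by omega⟩
    rw [Nat.add_sub_cancel]; ring
  have h8 := hT1 m hmT
  omega

/-- For `k ≥ q` two `k`-th powers are too far apart. -/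
theorem no_two {A u v k q B : ℕ} (hA : 2 ≤ A) (hk : 2 ≤ k) (hkq : q ≤ k) (huv : u < v)
    (hB : v ^ k < u ^ k + B) (hAu : A ≤ 2 * u ^ k) (hBA : B ^ q ≤ A ^ (q - 1)) (hq : 1 ≤ q) :
    False := by
  have h1 : u ^ k + k * u ^ (k - 1) ≤ v ^ k := by
    calc u ^ k + k * u ^ (k - 1) ≤ (u + 1) ^ k := by
          obtain ⟨j, rfl⟩ : ∃ j, k = j + 1 := ⟨k - 1, by omega⟩
          rw [Nat.add_sub_cancel]
          have h := (Commute.one_right u).add_pow (j + 1)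
          have hb : u ^ (j + 1) + (j + 1) * u ^ j ≤ (u + 1) ^ (j + 1) := by
            clear h hAu hB hkq hk
            induction j with
            | zero => simp
            | succ j ih =>
              calc u ^ (j + 1 + 1) + (j + 1 + 1) * u ^ (j + 1)
                  ≤ (u ^ (j + 1) + (j + 1) * u ^ j) * (u + 1) := by
                    have : 0 ≤ (j + 1) * u ^ j := Nat.zero_le _
                    calc u ^ (j + 1 + 1) + (j + 1 + 1) * u ^ (j + 1)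
                        ≤ u ^ (j + 1 + 1) + (j + 1 + 1) * u ^ (j + 1) + (j + 1) * u ^ j := by omega
                      _ = (u ^ (j + 1) + (j + 1) * u ^ j) * (u + 1) := by ring
                _ ≤ (u + 1) ^ (j + 1) * (u + 1) := Nat.mul_le_mul_right _ ih
                _ = _ := by ring
          exact hb
      _ ≤ v ^ k := Nat.pow_le_pow_left huv k
  have h2 : 2 * u ^ (k - 1) < B := by
    have : 2 * u ^ (k - 1) ≤ k * u ^ (k - 1) := Nat.mul_le_mul_right _ hk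
    omega
  have h3 : A ^ (k - 1) < B ^ k := by
    calc A ^ (k - 1) ≤ (2 * u ^ k) ^ (k - 1) := Nat.pow_le_pow_left hAu _
      _ = 2 ^ (k - 1) * (u ^ (k - 1)) ^ k := by
          rw [mul_pow, ← pow_mul, ← pow_mul, mul_comm k (k - 1)]
      _ ≤ 2 ^ k * (u ^ (k - 1)) ^ k := by
          apply Nat.mul_le_mul_right
          exact Nat.pow_le_pow_right (by norm_num) (by omega)
      _ = (2 * u ^ (k - 1)) ^ k := (mul_pow _ _ _).symm
      _ < B ^ k := Nat.pow_lt_pow_left h2 (by omega)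
  have h4 : A ^ ((k - 1) * q) < A ^ ((q - 1) * k) := by
    calc A ^ ((k - 1) * q) = (A ^ (k - 1)) ^ q := pow_mul _ _ _
      _ < (B ^ k) ^ q := Nat.pow_lt_pow_left h3 (by omega)
      _ = (B ^ q) ^ k := by rw [← pow_mul, ← pow_mul, mul_comm]
      _ ≤ (A ^ (q - 1)) ^ k := Nat.pow_le_pow_left hBA k
      _ = A ^ ((q - 1) * k) := (pow_mul _ _ _).symm
  have h5 := (Nat.pow_lt_pow_iff_right (by omega : 1 < A)).1 h4
  obtain ⟨k', rfl⟩ : ∃ k', k = k' + 1 := ⟨k - 1, by omega⟩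
  obtain ⟨q', rfl⟩ : ∃ q', q = q' + 1 := ⟨q - 1, by omega⟩
  rw [Nat.add_sub_cancel, Nat.add_sub_cancel] at h5
  nlinarith

theorem abs_log_le {z : ℝ} (h0 : 0 ≤ z) (h1 : z ≤ 1 / 2) :
    |Real.log (1 + z)| ≤ 2 * z ∧ |Real.log (1 - z)| ≤ 2 * z := by
  constructor
  · rw [abs_of_nonneg (Real.log_nonneg (by linarith))]
    have := Real.log_le_sub_one_of_pos (show 0 < 1 + z by linarith)
    linarith
  · have h2 : Real.log (1 - z) ≤ 0 := Real.log_nonpos (by linarith) (by linarith)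
    rw [abs_of_nonpos h2]
    have h3 := Real.one_sub_inv_le_log_of_pos (show 0 < 1 - z by linarith)
    have h4 : (1 - z)⁻¹ ≤ 1 + 2 * z := by
      rw [inv_le_comm₀ (by linarith) (by linarith)]
      rw [inv_le_iff_one_le_mul₀ (by linarith)]
      nlinarith
    linarith

theorem pow_growth (q : ℕ) (hq : 128 ≤ q) : 2 ^ 8 * q ^ 9 ≤ 2 ^ q := by
  induction q, hq using Nat.le_induction with
  | base => norm_num
  | succ q hq ih =>
    have h1 : (q + 1) ^ 9 ≤ 2 * q ^ 9 := by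
      have hq0 : (0 : ℝ) < q := by exact_mod_cast (by omega : 0 < q)
      have hq18 : (128 : ℝ) ≤ q := by exact_mod_cast hq
      have h2 : 1 + (9 : ℕ) * (-(1 / ((q : ℝ) + 1))) ≤ (1 + -(1 / ((q : ℝ) + 1))) ^ 9 :=
        one_add_mul_le_pow (by
          have : 1 / ((q : ℝ) + 1) ≤ 1 := by
            rw [div_le_one (by linarith)]; linarith
          linarith) 9
      have h3 : 1 + -(1 / ((q : ℝ) + 1)) = q / (q + 1) := by field_simp; ring
      rw [h3, div_pow] at h2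
      have h4 : (1 : ℝ) / 2 ≤ 1 + (9 : ℕ) * (-(1 / ((q : ℝ) + 1))) := by
        have : 1 / ((q : ℝ) + 1) ≤ 1 / 18 := one_div_le_one_div_of_le (by norm_num) (by linarith)
        push_cast
        linarith
      have h5 := h4.trans h2
      rw [div_le_div_iff₀ (by norm_num) (by positivity)] at h5
      have h6 : ((q : ℝ) + 1) ^ 9 ≤ 2 * q ^ 9 := by linarith
      exact_mod_cast h6
    calc 2 ^ 8 * (q + 1) ^ 9 ≤ 2 ^ 8 * (2 * q ^ 9) := Nat.mul_le_mul_left _ h1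
      _ = 2 * (2 ^ 8 * q ^ 9) := by ring
      _ ≤ 2 * 2 ^ q := Nat.mul_le_mul_left _ ih
      _ = 2 ^ (q + 1) := by ring

/-- The third exponent is small. -/
theorem k_bound {a B m k c q L : ℕ} (hq : 128 ≤ q) (ha : 2 ≤ a) (hL : 1 ≤ L) (haL : a ≤ 2 ^ L)
    (hLq : 10 ^ 10 * L ^ 4 ≤ q ^ 2) (hm : q ^ 7 ≤ m) (hmN : m + 1 ≤ 2 ^ 8 * q ^ 8)
    (hB0 : 1 ≤ B) (hB : B ^ q ≤ (a ^ m) ^ (q - 1)) (hk : 2 ^ 8 * q ^ 7 ≤ k)
    (hc : c ^ k = a ^ m + B ∨ c ^ k + B = a ^ m) : False := by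
  have hq0 : 0 < q := by omega
  have hqm : q ≤ m := by
    calc q = q ^ 1 := (pow_one q).symm
      _ ≤ q ^ 7 := Nat.pow_le_pow_right hq0 (by norm_num)
      _ ≤ m := hm
  have h2B := two_mul_le_of_pow ha (by omega) hqm hB
  have hk1 : 1 ≤ k := (show 1 ≤ 2 ^ 8 * q ^ 7 from Nat.succ_le_of_lt (by positivity)).trans hk
  have hA4 : 4 ≤ a ^ m := by
    calc 4 = 2 ^ 2 := by norm_num
      _ ≤ a ^ 2 := Nat.pow_le_pow_left ha 2
      _ ≤ a ^ m := Nat.pow_le_pow_right (by omega) (by omega)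
  have hck : c ^ k ≤ 2 * a ^ m := by rcases hc with h | h <;> omega
  have hck2 : a ^ m ≤ 2 * c ^ k := by rcases hc with h | h <;> omega
  have hc2 : 2 ≤ c := by
    by_contra hcon
    push Not at hcon
    have : c ^ k ≤ 1 := by
      calc c ^ k ≤ 1 ^ k := Nat.pow_le_pow_left (by omega) k
        _ = 1 := one_pow k
    omega
  have hup : c ^ k ≤ 2 ^ (L * (m + 1)) := by
    calc c ^ k ≤ 2 * a ^ m := hck
      _ ≤ a * a ^ m := Nat.mul_le_mul_right _ ha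
      _ = a ^ (m + 1) := by ring
      _ ≤ (2 ^ L) ^ (m + 1) := Nat.pow_le_pow_left haL _
      _ = 2 ^ (L * (m + 1)) := (pow_mul _ _ _).symm
  have hLm : L * (m + 1) ≤ L * q * k := by
    calc L * (m + 1) ≤ L * (2 ^ 8 * q ^ 8) := Nat.mul_le_mul_left _ hmN
      _ = L * q * (2 ^ 8 * q ^ 7) := by ring
      _ ≤ L * q * k := Nat.mul_le_mul_left _ hk
  have hcS : c ≤ 2 ^ (L * q) := by
    by_contra hcon
    push Not at hcon
    have h1 : (2 ^ (L * q)) ^ k < c ^ k := Nat.pow_lt_pow_left hcon (by omega)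
    rw [← pow_mul] at h1
    have h2 := (Nat.pow_lt_pow_iff_right (by norm_num : 1 < 2)).1 (h1.trans_le hup)
    omega
  have hLq' : L ≤ q := by
    by_contra hcon
    push Not at hcon
    have h1 : q ^ 2 ≤ L ^ 2 := Nat.pow_le_pow_left hcon.le 2
    have h2 : L ^ 2 ≤ L ^ 4 := Nat.pow_le_pow_right hL (by norm_num)
    have h3 : 0 < L ^ 4 := by positivity
    omega
  have hkS : k ≤ 2 ^ (L * q) := by
    have h1 : 2 ^ k ≤ 2 ^ (L * (m + 1)) := (Nat.pow_le_pow_left hc2 k).trans hup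
    have h2 := (Nat.pow_le_pow_iff_right (by norm_num : 1 < 2)).1 h1
    calc k ≤ L * (m + 1) := h2
      _ ≤ q * (2 ^ 8 * q ^ 8) := Nat.mul_le_mul hLq' hmN
      _ = 2 ^ 8 * q ^ 9 := by ring
      _ ≤ 2 ^ q := pow_growth q hq
      _ ≤ 2 ^ (L * q) := Nat.pow_le_pow_right (by norm_num) (Nat.le_mul_of_pos_left q hL)
  have hne : c ^ k ≠ a ^ m := by rcases hc with h | h <;> omega
  have harch := Pool.Agent.TH888.B1.arch_log (S := L * q) (A := a) (U := c) (m := m) (k := k)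
    (Nat.mul_pos hL hq0) ha hc2
    (haL.trans (Nat.pow_le_pow_right (by norm_num) (Nat.le_mul_of_pos_right L hq0)))
    hcS (by omega) hk1 hkS hne
  -- the linear form is small
  have hA0 : (0 : ℝ) < (a : ℝ) ^ m := by positivity
  obtain ⟨z, hz⟩ : ∃ z : ℝ, z = (B : ℝ) / (a : ℝ) ^ m := ⟨_, rfl⟩
  have hz0 : 0 ≤ z := by rw [hz]; positivity
  have hz1 : z ≤ 1 / 2 := by
    rw [hz, div_le_iff₀ hA0]
    have : (2 : ℝ) * B ≤ (a : ℝ) ^ m := by exact_mod_cast h2B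
    linarith
  have hlog : |(k : ℝ) * Real.log c - m * Real.log a| ≤ 2 * z := by
    have hc0 : (0 : ℝ) < c := by exact_mod_cast (by omega : 0 < c)
    have h1 : (k : ℝ) * Real.log c - m * Real.log a = Real.log ((c : ℝ) ^ k / (a : ℝ) ^ m) := by
      rw [Real.log_div (by positivity) (by positivity), Real.log_pow, Real.log_pow]
    rw [h1]
    rcases hc with h | h
    · have h2 : (c : ℝ) ^ k / (a : ℝ) ^ m = 1 + z := by
        have h3 : (c : ℝ) ^ k = (a : ℝ) ^ m + B := by exact_mod_cast h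
        rw [h3, hz]; field_simp
      rw [h2]; exact (abs_log_le hz0 hz1).1
    · have h2 : (c : ℝ) ^ k / (a : ℝ) ^ m = 1 - z := by
        have h3 : (c : ℝ) ^ k + B = (a : ℝ) ^ m := by exact_mod_cast h
        have h4 : (c : ℝ) ^ k = (a : ℝ) ^ m - B := by linarith
        rw [h4, hz]; field_simp
      rw [h2]; exact (abs_log_le hz0 hz1).2
  have hzq : z ^ q ≤ 1 / 2 ^ m := by
    have h1 : (B : ℝ) ^ q ≤ ((a : ℝ) ^ m) ^ (q - 1) := by exact_mod_cast hB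
    have h2 : z ^ q ≤ 1 / (a : ℝ) ^ m := by
      rw [hz, div_pow, div_le_div_iff₀ (by positivity) hA0, one_mul]
      calc (B : ℝ) ^ q * (a : ℝ) ^ m ≤ ((a : ℝ) ^ m) ^ (q - 1) * (a : ℝ) ^ m :=
            mul_le_mul_of_nonneg_right h1 hA0.le
        _ = ((a : ℝ) ^ m) ^ q := by rw [← pow_succ, Nat.sub_add_cancel (by omega)]
    refine h2.trans ?_
    apply one_div_le_one_div_of_le (by positivity)
    have : (2 : ℝ) ≤ a := by exact_mod_cast ha
    exact pow_le_pow_left₀ (by norm_num) this m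
  have hS : Real.exp (-(10 ^ 9 * ((L * q : ℕ) : ℝ) ^ 4)) ≤ 2 * z := harch.trans hlog
  have h1 : Real.exp (-(10 ^ 9 * ((L * q : ℕ) : ℝ) ^ 4)) ^ q ≤ 2 ^ q * (1 / 2 ^ m) := by
    calc Real.exp (-(10 ^ 9 * ((L * q : ℕ) : ℝ) ^ 4)) ^ q ≤ (2 * z) ^ q :=
          pow_le_pow_left₀ (Real.exp_pos _).le hS q
      _ = 2 ^ q * z ^ q := mul_pow _ _ _
      _ ≤ 2 ^ q * (1 / 2 ^ m) := mul_le_mul_of_nonneg_left hzq (by positivity)
  have h2 : (2 : ℝ) ^ m ≤ 2 ^ q * Real.exp (10 ^ 9 * ((L * q : ℕ) : ℝ) ^ 4 * q) := by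
    rw [← Real.exp_nat_mul] at h1
    have h3 : (q : ℝ) * -(10 ^ 9 * ((L * q : ℕ) : ℝ) ^ 4) =
        -(10 ^ 9 * ((L * q : ℕ) : ℝ) ^ 4 * q) := by ring
    rw [h3, Real.exp_neg, mul_one_div, ← one_div, div_le_div_iff₀ (Real.exp_pos _)
      (by positivity), one_mul] at h1
    exact h1
  have h3 : Real.exp (10 ^ 9 * ((L * q : ℕ) : ℝ) ^ 4 * q) ≤
      (2 : ℝ) ^ (2 * (10 ^ 9 * (L * q) ^ 4 * q)) := by
    have h4 : (10 : ℝ) ^ 9 * ((L * q : ℕ) : ℝ) ^ 4 * q = ((10 ^ 9 * (L * q) ^ 4 * q : ℕ) : ℝ) := by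
      push_cast; ring
    rw [h4]
    obtain ⟨n, hn⟩ : ∃ n : ℕ, n = 10 ^ 9 * (L * q) ^ 4 * q := ⟨_, rfl⟩
    rw [← hn, pow_mul, ← mul_one (n : ℝ), Real.exp_nat_mul]
    apply pow_le_pow_left₀ (Real.exp_pos _).le
    have := Real.exp_one_lt_d9
    norm_num
    linarith
  have h4 : (2 : ℝ) ^ m ≤ 2 ^ (q + 2 * (10 ^ 9 * (L * q) ^ 4 * q)) := by
    rw [pow_add]
    exact h2.trans (mul_le_mul_of_nonneg_left h3 (by positivity))
  have h5 : m ≤ q + 2 * (10 ^ 9 * (L * q) ^ 4 * q) := by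
    have h6 : 2 ^ m ≤ 2 ^ (q + 2 * (10 ^ 9 * (L * q) ^ 4 * q)) := by exact_mod_cast h4
    exact (Nat.pow_le_pow_iff_right (by norm_num : 1 < 2)).1 h6
  have h6 : 5 * (2 * (10 ^ 9 * (L * q) ^ 4 * q)) ≤ q ^ 7 := by
    calc 5 * (2 * (10 ^ 9 * (L * q) ^ 4 * q)) = (10 ^ 10 * L ^ 4) * q ^ 5 := by ring
      _ ≤ q ^ 2 * q ^ 5 := Nat.mul_le_mul_right _ hLq
      _ = q ^ 7 := by ring
  have h7 : 2 * q < q ^ 7 := by
    calc 2 * q < q * q := Nat.mul_lt_mul_of_pos_right (by omega) hq0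
      _ = q ^ 2 := by ring
      _ ≤ q ^ 7 := Nat.pow_le_pow_right hq0 (by norm_num)
  omega

end Pool.Agent.Y411.FB
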