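import Mathlib
import Pool.Agent.Y411.FB.Block

/-!
# Counting the exceptional pairs of exponents
-/

set_option autoImplicit false

namespace Pool.Agent.Y411.FB

open Finset Classical

/-- `a ^ m + b ^ n` or `a ^ m - b ^ n` is a perfect power `c ^ k` (sign `s`). -/
def Rep (a b m n k c : ℕ) (s : Bool) : Prop :=
  if s then c ^ k = a ^ m + b ^ n else c ^ k + b ^ n = a ^ m

/-- The exceptional pairs with `b ^ n ≤ a ^ m`. -/
noncomputable def EE (a b N : ℕ) : Finset (ℕ × ℕ) :=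
  (Icc 1 N ×ˢ Icc 1 N).filter fun p => b ^ p.2 ≤ a ^ p.1 ∧ ∃ k c s, 2 ≤ k ∧ Rep a b p.1 p.2 k c s

theorem mem_EE {a b N : ℕ} {p : ℕ × ℕ} : p ∈ EE a b N ↔ ((1 ≤ p.1 ∧ p.1 ≤ N) ∧ (1 ≤ p.2 ∧ p.2 ≤ N)) ∧
    b ^ p.2 ≤ a ^ p.1 ∧ ∃ k c s, 2 ≤ k ∧ Rep a b p.1 p.2 k c s := by
  unfold EE
  rw [mem_filter, mem_product, mem_Icc, mem_Icc]

/-- The sector near the line `a ^ m = b ^ n`. -/
theorem sector {a b N q : ℕ} (ha : 2 ≤ a) (hb : 2 ≤ b) (hq : 2 ≤ q) :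
    ((EE a b N).filter fun p => (a ^ p.1) ^ (q - 1) < (b ^ p.2) ^ q).card ≤ (N / q + 1) * N := by
  have h := card_le_mul_card_image_of_maps_to (f := Prod.fst)
    (s := (EE a b N).filter fun p => (a ^ p.1) ^ (q - 1) < (b ^ p.2) ^ q) (t := Icc 1 N)
    (by
      intro p hp
      have h1 := (mem_EE.1 (mem_filter.1 hp).1).1.1
      exact mem_Icc.2 h1) (N / q + 1) ?_
  · simpa using h
  intro m _
  obtain ⟨F, hF⟩ : ∃ F, F = ((EE a b N).filter fun p => (a ^ p.1) ^ (q - 1) < (b ^ p.2) ^ q).filter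
    (fun p => p.1 = m) := ⟨_, rfl⟩
  rw [← hF]
  have hmem : ∀ p ∈ F, p.1 = m ∧ p.2 ≤ N ∧ b ^ p.2 ≤ a ^ m ∧ (a ^ m) ^ (q - 1) < (b ^ p.2) ^ q := by
    intro p hp
    rw [hF, mem_filter, mem_filter] at hp
    obtain ⟨⟨h1, h2⟩, h3⟩ := hp
    obtain ⟨h4, h5, _⟩ := mem_EE.1 h1
    rw [h3] at h2 h5
    exact ⟨h3, h4.2.2, h5, h2⟩
  have hdiam : ∀ p ∈ F, ∀ p' ∈ F, p'.2 ≤ p.2 + N / q := by
    intro p hp p' hp'
    obtain ⟨_, _, _, h1⟩ := hmem p hp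
    obtain ⟨_, h2, h3, _⟩ := hmem p' hp'
    have h4 : b ^ (p'.2 * (q - 1)) < b ^ (p.2 * q) := by
      calc b ^ (p'.2 * (q - 1)) = (b ^ p'.2) ^ (q - 1) := pow_mul _ _ _
        _ ≤ (a ^ m) ^ (q - 1) := Nat.pow_le_pow_left h3 _
        _ < (b ^ p.2) ^ q := h1
        _ = b ^ (p.2 * q) := (pow_mul _ _ _).symm
    have h5 := (Nat.pow_lt_pow_iff_right (by omega : 1 < b)).1 h4
    have h6 : p'.2 * q < p.2 * q + p'.2 := by
      obtain ⟨q', rfl⟩ : ∃ q', q = q' + 1 := ⟨q - 1, by omega⟩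
      rw [Nat.add_sub_cancel] at h5
      rw [mul_add p'.2, mul_one]
      omega
    by_contra hcon
    push Not at hcon
    have h7 : p'.2 - p.2 ≤ N / q := by
      rw [Nat.le_div_iff_mul_le (by omega), Nat.sub_mul]
      omega
    omega
  rcases F.eq_empty_or_nonempty with h0 | h0
  · rw [h0]; simp
  have hinj : Set.InjOn Prod.snd (F : Set (ℕ × ℕ)) := by
    intro p hp p' hp' h
    exact Prod.ext ((hmem p hp).1.trans (hmem p' hp').1.symm) h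
  rw [← card_image_of_injOn hinj]
  have hne : (F.image Prod.snd).Nonempty := h0.image _
  obtain ⟨p₀, hp₀, hp₀'⟩ := mem_image.1 ((F.image Prod.snd).min'_mem hne)
  calc (F.image Prod.snd).card ≤ (Icc p₀.2 (p₀.2 + N / q)).card := by
        apply card_le_card
        intro n hn
        obtain ⟨p, hp, hpn⟩ := mem_image.1 hn
        rw [mem_Icc]
        constructor
        · rw [hp₀']; exact (F.image Prod.snd).min'_le n hn
        · rw [← hpn]; exact hdiam p₀ hp₀ p hp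
    _ = N / q + 1 := by rw [Nat.card_Icc, add_assoc, Nat.add_sub_cancel_left]

/-- Small exponents `k`. -/
theorem small_k {a b N q : ℕ} (ha : 2 ≤ a) (hb : 2 ≤ b) (hq : 128 ≤ q)
    (E : Finset (ℕ × ℕ)) (hE : ∀ p ∈ E, p.1 ≤ N ∧ 1 ≤ p.2 ∧ p.2 ≤ N ∧ q ^ 7 ≤ p.1 ∧
      (b ^ p.2) ^ q ≤ (a ^ p.1) ^ (q - 1) ∧ ∃ k c s, 2 ≤ k ∧ k < q ∧ Rep a b p.1 p.2 k c s) :
    E.card ≤ q * (q * (2 * (N * (q * (N / q ^ 4 + 1))))) := by
  have hk : ∀ p ∈ E, ∃ k c s, 2 ≤ k ∧ k < q ∧ Rep a b p.1 p.2 k c s :=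
    fun p hp => (hE p hp).2.2.2.2.2
  choose! k c s h2 h3 h4 using hk
  have h := card_le_mul_card_image_of_maps_to
    (f := fun p : ℕ × ℕ => (k p, s p, p.2, p.1 % k p, p.1 / q ^ 4))
    (s := E) (t := range q ×ˢ (univ : Finset Bool) ×ˢ Icc 1 N ×ˢ range q ×ˢ range (N / q ^ 4 + 1))
    (by
      intro p hp
      obtain ⟨e1, e2, e3, _⟩ := hE p hp
      simp only [mem_product, mem_range, mem_univ, true_and, mem_Icc]
      refine ⟨h3 p hp, ⟨e2, e3⟩, ?_, ?_⟩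
      · exact (Nat.mod_lt _ (by have := h2 p hp; omega)).trans (h3 p hp)
      · exact Nat.lt_succ_of_le (Nat.div_le_div_right e1)) q ?_
  · simpa using h
  rintro ⟨k', s', n, r, B⟩ _
  obtain ⟨F, hF⟩ : ∃ F, F = E.filter
    (fun p => (k p, s p, p.2, p.1 % k p, p.1 / q ^ 4) = (k', s', n, r, B)) := ⟨_, rfl⟩
  rw [← hF]
  have hmem : ∀ p ∈ F, p ∈ E ∧ k p = k' ∧ s p = s' ∧ p.2 = n ∧ p.1 % k' = r ∧ p.1 / q ^ 4 = B := by
    intro p hp
    rw [hF, mem_filter] at hp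
    obtain ⟨h5, h6⟩ := hp
    simp only [Prod.mk.injEq] at h6
    obtain ⟨g1, g2, g3, g4, g5⟩ := h6
    rw [g1] at g4
    exact ⟨h5, g1, g2, g3, g4, g5⟩
  rcases F.eq_empty_or_nonempty with h0 | ⟨p₀, hp₀⟩
  · rw [h0]; simp
  have hinj : Set.InjOn Prod.fst (F : Set (ℕ × ℕ)) := by
    intro p hp p' hp' h
    exact Prod.ext h ((hmem p hp).2.2.2.1.trans (hmem p' hp').2.2.2.1.symm)
  rw [← card_image_of_injOn hinj]
  obtain ⟨g0, g1, g2, g3, _, _⟩ := hmem p₀ hp₀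
  have hk2 : 2 ≤ k' := by rw [← g1]; exact h2 p₀ g0
  have hq0 : 0 < q := by omega
  have hbn : 0 < b ^ n := by positivity
  have habs : ((if s' then ((b ^ n : ℕ) : ℤ) else -((b ^ n : ℕ) : ℤ))).natAbs = b ^ n := by
    cases s' <;> simp
  refine few_in_block ha hk2 (by omega)
    (if s' then ((b ^ n : ℕ) : ℤ) else -((b ^ n : ℕ) : ℤ)) ?_ _ r (q ^ 4) (q ^ 7) ?_ ?_ ?_ ?_ ?_ ?_
  · rw [← Int.natAbs_ne_zero, habs]; omega
  · have e1 : 2 * q * (q + 1) * q ^ 4 ≤ 4 * q ^ 6 := by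
      calc 2 * q * (q + 1) * q ^ 4 ≤ 2 * q * (2 * q) * q ^ 4 := by
            apply Nat.mul_le_mul_right
            apply Nat.mul_le_mul_left
            omega
        _ = 4 * q ^ 6 := by ring
    have e2 : 2 * q ≤ 2 * q ^ 6 := by
      apply Nat.mul_le_mul_left
      calc q = q ^ 1 := (pow_one q).symm
        _ ≤ q ^ 6 := Nat.pow_le_pow_right hq0 (by norm_num)
    have e3 : 7 * q ^ 6 ≤ q ^ 7 := by
      calc 7 * q ^ 6 ≤ q * q ^ 6 := Nat.mul_le_mul_right _ (by omega)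
        _ = q ^ 7 := by ring
    have e4 : 0 < q ^ 6 := by positivity
    omega
  · intro m hm
    obtain ⟨p, hp, rfl⟩ := mem_image.1 hm
    exact (hE p (hmem p hp).1).2.2.2.1
  · intro m hm
    obtain ⟨p, hp, rfl⟩ := mem_image.1 hm
    exact (hmem p hp).2.2.2.2.1
  · intro m hm
    obtain ⟨p, hp, rfl⟩ := mem_image.1 hm
    obtain ⟨f0, f1, f2, f3, f4, f5⟩ := hmem p hp
    refine ⟨c p, ?_⟩
    have h5 := h4 p f0
    rw [f1, f2, f3] at h5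
    unfold Rep at h5
    cases s'
    · simp only [Bool.false_eq_true, if_false] at h5 ⊢
      have h6 : ((c p : ℕ) : ℤ) ^ k' + ((b ^ n : ℕ) : ℤ) = (a : ℤ) ^ p.1 := by exact_mod_cast h5
      linarith
    · simp only [if_true] at h5 ⊢
      exact_mod_cast h5
  · intro m hm
    obtain ⟨p, hp, rfl⟩ := mem_image.1 hm
    obtain ⟨f0, f1, f2, f3, f4, f5⟩ := hmem p hp
    rw [habs, ← f3]
    exact (hE p f0).2.2.2.2.1
  · intro m hm m' hm'
    obtain ⟨p, hp, rfl⟩ := mem_image.1 hm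
    obtain ⟨p', hp', rfl⟩ := mem_image.1 hm'
    have e1 := (hmem p hp).2.2.2.2.2
    have e2 := (hmem p' hp').2.2.2.2.2
    have hq4 : 0 < q ^ 4 := by positivity
    have e3 := Nat.div_mul_le_self p.1 (q ^ 4)
    have e4 := Nat.lt_div_mul_add (a := p'.1) hq4
    rw [e1] at e3
    rw [e2] at e4
    omega

/-- Large exponents `k`. -/
theorem large_k {a b N q L : ℕ} (ha : 2 ≤ a) (hb : 2 ≤ b) (hq : 128 ≤ q) (hL : 1 ≤ L)
    (haL : a ≤ 2 ^ L) (hLq : 10 ^ 10 * L ^ 4 ≤ q ^ 2) (hN : N + 1 ≤ 2 ^ 8 * q ^ 8)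
    (E : Finset (ℕ × ℕ)) (hE : ∀ p ∈ E, 1 ≤ p.1 ∧ p.1 ≤ N ∧ q ^ 7 ≤ p.1 ∧
      (b ^ p.2) ^ q ≤ (a ^ p.1) ^ (q - 1) ∧ ∃ k c s, 2 ≤ k ∧ q ≤ k ∧ Rep a b p.1 p.2 k c s) :
    E.card ≤ N * (2 ^ 8 * q ^ 7 * 2) := by
  have hk : ∀ p ∈ E, ∃ k c s, 2 ≤ k ∧ q ≤ k ∧ Rep a b p.1 p.2 k c s :=
    fun p hp => (hE p hp).2.2.2.2
  choose! k c s h2 h3 h4 using hk
  have hq0 : 0 < q := by omega
  have hqm : ∀ p ∈ E, q ≤ p.1 := by
    intro p hp
    calc q = q ^ 1 := (pow_one q).symm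
      _ ≤ q ^ 7 := Nat.pow_le_pow_right hq0 (by norm_num)
      _ ≤ p.1 := (hE p hp).2.2.1
  have hkb : ∀ p ∈ E, k p < 2 ^ 8 * q ^ 7 := by
    intro p hp
    by_contra hcon
    push Not at hcon
    obtain ⟨e1, e2, e3, e4, _⟩ := hE p hp
    refine k_bound (B := b ^ p.2) (c := c p) hq ha hL haL hLq e3 (by omega) (by
      exact Nat.succ_le_of_lt (by positivity)) e4 hcon ?_
    have h5 := h4 p hp
    unfold Rep at h5
    split_ifs at h5
    · exact Or.inl h5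
    · exact Or.inr h5
  have key : ∀ p ∈ E, ∀ p' ∈ E, p.1 = p'.1 → k p = k p' → s p = s p' → ¬ p.2 < p'.2 := by
    intro p hp p' hp' e1 e2 e3 hlt
    have hB : b ^ p.2 < b ^ p'.2 := Nat.pow_lt_pow_right (by omega) hlt
    have hB0 : 0 < b ^ p.2 := by positivity
    have h5 := h4 p hp
    have h6 := h4 p' hp'
    have h7 := (hE p' hp').2.2.2.1
    have h8 := two_mul_le_of_pow ha (by omega) (hqm p' hp') h7
    have h9 : 2 ≤ a ^ p'.1 := by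
      calc 2 = 2 ^ 1 := (pow_one 2).symm
        _ ≤ a ^ 1 := Nat.pow_le_pow_left ha 1
        _ ≤ a ^ p'.1 := Nat.pow_le_pow_right (by omega) (hE p' hp').1
    unfold Rep at h5 h6
    rw [e1, e2, e3] at h5
    split_ifs at h5 h6 with hs
    · have hlt' : c p < c p' := by
        by_contra hcon
        push Not at hcon
        have := Nat.pow_le_pow_left hcon (k p')
        omega
      exact no_two h9 (h2 p' hp') (h3 p' hp') hlt' (B := b ^ p'.2) (by omega) (by omega) h7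
        (by omega)
    · have hlt' : c p' < c p := by
        by_contra hcon
        push Not at hcon
        have := Nat.pow_le_pow_left hcon (k p')
        omega
      exact no_two h9 (h2 p' hp') (h3 p' hp') hlt' (B := b ^ p'.2) (by omega) (by omega) h7
        (by omega)
  have h := card_le_card_of_injOn (s := E)
    (t := Icc 1 N ×ˢ range (2 ^ 8 * q ^ 7) ×ˢ (univ : Finset Bool))
    (fun p : ℕ × ℕ => (p.1, k p, s p))
    (by
      intro p hp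
      have hp := mem_coe.1 hp
      simp only [coe_product, Set.mem_prod, mem_coe, mem_Icc, mem_range, mem_univ, and_true]
      exact ⟨⟨(hE p hp).1, (hE p hp).2.1⟩, hkb p hp⟩)
    (by
      intro p hp p' hp' he
      have hp := mem_coe.1 hp
      have hp' := mem_coe.1 hp'
      simp only [Prod.mk.injEq] at he
      obtain ⟨e1, e2, e3⟩ := he
      have g1 := key p hp p' hp' e1 e2 e3
      have g2 := key p' hp' p hp e1.symm e2.symm e3.symm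
      exact Prod.ext e1 (by omega))
  simpa using h

theorem one_side {a b N q L : ℕ} (ha : 2 ≤ a) (hb : 2 ≤ b) (hq : 128 ≤ q) (hL : 1 ≤ L)
    (haL : a ≤ 2 ^ L) (hLq : 10 ^ 10 * L ^ 4 ≤ q ^ 2) (hN : N + 1 ≤ 2 ^ 8 * q ^ 8) :
    (EE a b N).card ≤ 2 ^ 12 * (q ^ 7 * N) := by
  have hq0 : 0 < q := by omega
  obtain ⟨E1, hE1⟩ : ∃ E1, E1 = (EE a b N).filter (fun p => p.1 < q ^ 7) := ⟨_, rfl⟩
  obtain ⟨E2, hE2⟩ : ∃ E2, E2 = (EE a b N).filter (fun p => (a ^ p.1) ^ (q - 1) < (b ^ p.2) ^ q) :=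
    ⟨_, rfl⟩
  obtain ⟨R, hR⟩ : ∃ R, R = (EE a b N).filter (fun p => q ^ 7 ≤ p.1 ∧
    (b ^ p.2) ^ q ≤ (a ^ p.1) ^ (q - 1)) := ⟨_, rfl⟩
  obtain ⟨E3, hE3⟩ : ∃ E3, E3 = R.filter (fun p => ∃ k c s, 2 ≤ k ∧ k < q ∧
    Rep a b p.1 p.2 k c s) := ⟨_, rfl⟩
  obtain ⟨E4, hE4⟩ : ∃ E4, E4 = R.filter (fun p => ∃ k c s, 2 ≤ k ∧ q ≤ k ∧
    Rep a b p.1 p.2 k c s) := ⟨_, rfl⟩
  have hsub : EE a b N ⊆ E1 ∪ (E2 ∪ (E3 ∪ E4)) := by
    intro p hp
    rw [mem_union, mem_union, mem_union]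
    by_cases h1 : p.1 < q ^ 7
    · left; rw [hE1]; exact mem_filter.2 ⟨hp, h1⟩
    by_cases h2 : (a ^ p.1) ^ (q - 1) < (b ^ p.2) ^ q
    · right; left; rw [hE2]; exact mem_filter.2 ⟨hp, h2⟩
    have hpR : p ∈ R := by
      rw [hR]; exact mem_filter.2 ⟨hp, by omega, by omega⟩
    obtain ⟨_, _, k, c, s, hk, hrep⟩ := mem_EE.1 hp
    right; right
    rcases Nat.lt_or_ge k q with h3 | h3
    · left; rw [hE3]; exact mem_filter.2 ⟨hpR, k, c, s, hk, h3, hrep⟩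
    · right; rw [hE4]; exact mem_filter.2 ⟨hpR, k, c, s, hk, h3, hrep⟩
  have hRm : ∀ p ∈ R, (1 ≤ p.1 ∧ p.1 ≤ N) ∧ (1 ≤ p.2 ∧ p.2 ≤ N) ∧ q ^ 7 ≤ p.1 ∧
      (b ^ p.2) ^ q ≤ (a ^ p.1) ^ (q - 1) := by
    intro p hp
    rw [hR] at hp
    obtain ⟨h1, h2, h3⟩ := mem_filter.1 hp
    obtain ⟨⟨h4, h5⟩, _⟩ := mem_EE.1 h1
    exact ⟨h4, h5, h2, h3⟩
  have c1 : E1.card ≤ q ^ 7 * N := by
    calc E1.card ≤ (range (q ^ 7) ×ˢ Icc 1 N).card := by
          apply card_le_card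
          intro p hp
          rw [hE1] at hp
          obtain ⟨h1, h2⟩ := mem_filter.1 hp
          exact mem_product.2 ⟨mem_range.2 h2, mem_Icc.2 (mem_EE.1 h1).1.2⟩
      _ = q ^ 7 * N := by simp
  have hN8 : N ≤ 2 ^ 8 * q ^ 8 := by omega
  have hNq : N / q + 1 ≤ 2 ^ 9 * q ^ 7 := by
    have h1 : N / q ≤ 2 ^ 8 * q ^ 7 := by
      apply Nat.div_le_of_le_mul
      calc N ≤ 2 ^ 8 * q ^ 8 := hN8
        _ = q * (2 ^ 8 * q ^ 7) := by ring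
    have h2 : 0 < q ^ 7 := by positivity
    omega
  have c2 : E2.card ≤ 2 ^ 9 * (q ^ 7 * N) := by
    calc E2.card ≤ (N / q + 1) * N := by rw [hE2]; exact sector ha hb (by omega)
      _ ≤ (2 ^ 9 * q ^ 7) * N := Nat.mul_le_mul_right _ hNq
      _ = _ := by ring
  have c3 : E3.card ≤ 2 ^ 10 * (q ^ 7 * N) := by
    have h1 := small_k (N := N) ha hb hq E3 (by
      intro p hp
      rw [hE3] at hp
      obtain ⟨h1, h2⟩ := mem_filter.1 hp
      obtain ⟨h3, h4, h5, h6⟩ := hRm p h1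
      exact ⟨h3.2, h4.1, h4.2, h5, h6, h2⟩)
    have h2 : N / q ^ 4 + 1 ≤ 2 ^ 9 * q ^ 4 := by
      have h3 : N / q ^ 4 ≤ 2 ^ 8 * q ^ 4 := by
        apply Nat.div_le_of_le_mul
        calc N ≤ 2 ^ 8 * q ^ 8 := hN8
          _ = q ^ 4 * (2 ^ 8 * q ^ 4) := by ring
      have h4 : 0 < q ^ 4 := by positivity
      omega
    calc E3.card ≤ q * (q * (2 * (N * (q * (N / q ^ 4 + 1))))) := h1
      _ ≤ q * (q * (2 * (N * (q * (2 ^ 9 * q ^ 4))))) := by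
          gcongr
      _ = 2 ^ 10 * (q ^ 7 * N) := by ring
  have c4 : E4.card ≤ 2 ^ 9 * (q ^ 7 * N) := by
    have h1 := large_k (N := N) ha hb hq hL haL hLq hN E4 (by
      intro p hp
      rw [hE4] at hp
      obtain ⟨h1, h2⟩ := mem_filter.1 hp
      obtain ⟨h3, h4, h5, h6⟩ := hRm p h1
      exact ⟨h3.1, h3.2, h5, h6, h2⟩)
    calc E4.card ≤ N * (2 ^ 8 * q ^ 7 * 2) := h1
      _ = 2 ^ 9 * (q ^ 7 * N) := by ring
  calc (EE a b N).card ≤ (E1 ∪ (E2 ∪ (E3 ∪ E4))).card := card_le_card hsub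
    _ ≤ E1.card + (E2.card + (E3.card + E4.card)) :=
        (card_union_le _ _).trans (Nat.add_le_add_left ((card_union_le _ _).trans
          (Nat.add_le_add_left (card_union_le _ _) _)) _)
    _ ≤ 2 ^ 12 * (q ^ 7 * N) := by omega

end Pool.Agent.Y411.FB
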