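import Mathlib
import Pool.Agent.Y411.FB.Count

/-!
# The number of exceptional pairs of exponents for two given bases
-/

set_option autoImplicit false

namespace Pool.Agent.Y411.FB

open Finset Classical

theorem both_sides {a b N q L : ℕ} (ha : 2 ≤ a) (hb : 2 ≤ b) (hq : 128 ≤ q) (hL : 1 ≤ L)
    (haL : a ≤ 2 ^ L) (hbL : b ≤ 2 ^ L) (hLq : 10 ^ 10 * L ^ 4 ≤ q ^ 2)
    (hN : N + 1 ≤ 2 ^ 8 * q ^ 8) :
    Set.ncard {p : ℕ × ℕ | 1 ≤ p.1 ∧ p.1 ≤ N ∧ 1 ≤ p.2 ∧ p.2 ≤ N ∧ ∃ c k : ℕ, 2 ≤ k ∧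
      (a ^ p.1 + b ^ p.2 = c ^ k ∨ a ^ p.1 = b ^ p.2 + c ^ k ∨ b ^ p.2 = a ^ p.1 + c ^ k)} ≤
      2 ^ 13 * (q ^ 7 * N) := by
  have hsub : {p : ℕ × ℕ | 1 ≤ p.1 ∧ p.1 ≤ N ∧ 1 ≤ p.2 ∧ p.2 ≤ N ∧ ∃ c k : ℕ, 2 ≤ k ∧
      (a ^ p.1 + b ^ p.2 = c ^ k ∨ a ^ p.1 = b ^ p.2 + c ^ k ∨ b ^ p.2 = a ^ p.1 + c ^ k)} ⊆
      ((EE a b N ∪ (EE b a N).image Prod.swap : Finset (ℕ × ℕ)) : Set (ℕ × ℕ)) := by
    rintro ⟨m, n⟩ ⟨h1, h2, h3, h4, c, k, hk, h5⟩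
    simp only at h1 h2 h3 h4 h5
    rw [mem_coe, mem_union, mem_image]
    rcases h5 with h5 | h5 | h5
    · rcases Nat.le_total (b ^ n) (a ^ m) with h6 | h6
      · left
        exact mem_EE.2 ⟨⟨⟨h1, h2⟩, h3, h4⟩, h6, k, c, true, hk, by
          unfold Rep; simp only [if_true]; exact h5.symm⟩
      · right
        exact ⟨(n, m), mem_EE.2 ⟨⟨⟨h3, h4⟩, h1, h2⟩, h6, k, c, true, hk, by
          unfold Rep; simp only [if_true]; omega⟩, rfl⟩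
    · left
      exact mem_EE.2 ⟨⟨⟨h1, h2⟩, h3, h4⟩, by simp only; omega, k, c, false, hk, by
        unfold Rep; simp only [Bool.false_eq_true, if_false]; omega⟩
    · right
      exact ⟨(n, m), mem_EE.2 ⟨⟨⟨h3, h4⟩, h1, h2⟩, by simp only; omega, k, c, false, hk, by
        unfold Rep; simp only [Bool.false_eq_true, if_false]; omega⟩, rfl⟩
  have h1 := one_side (N := N) ha hb hq hL haL hLq hN
  have h2 := one_side (N := N) hb ha hq hL hbL hLq hN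
  calc _ ≤ ((EE a b N ∪ (EE b a N).image Prod.swap : Finset (ℕ × ℕ)) : Set (ℕ × ℕ)).ncard :=
        Set.ncard_le_ncard hsub (finite_toSet _)
    _ = (EE a b N ∪ (EE b a N).image Prod.swap).card := Set.ncard_coe_finset _
    _ ≤ (EE a b N).card + ((EE b a N).image Prod.swap).card := card_union_le _ _
    _ ≤ (EE a b N).card + (EE b a N).card := Nat.add_le_add_left card_image_le _
    _ ≤ 2 ^ 13 * (q ^ 7 * N) := by omega

theorem le_two_pow {a : ℕ} {X : ℝ} (hX : 693 ≤ X) (ha : 1 ≤ a) (h : (a : ℝ) ≤ Real.exp (X / 1000)) :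
    a ≤ 2 ^ (⌊X / 346⌋₊) := by
  have hlog2 := Real.log_two_gt_d9
  have ha0 : (0 : ℝ) < a := by exact_mod_cast ha
  have h1 : Real.log a ≤ X / 1000 := by
    rw [← Real.log_exp (X / 1000)]
    exact Real.log_le_log ha0 h
  have h2 : X / 346 - 1 < ⌊X / 346⌋₊ := Nat.sub_one_lt_floor _
  have h3 : X / 693 ≤ (⌊X / 346⌋₊ : ℝ) := by
    have : X / 693 ≤ X / 346 - 1 := by linarith
    linarith
  have h4 : Real.log a ≤ Real.log ((2 : ℝ) ^ ⌊X / 346⌋₊) := by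
    rw [Real.log_pow]
    calc Real.log a ≤ X / 1000 := h1
      _ ≤ X / 693 * Real.log 2 := by
          have : 0.6931471803 * (X / 693) ≤ Real.log 2 * (X / 693) :=
            mul_le_mul_of_nonneg_right hlog2.le (by linarith)
          linarith
      _ ≤ (⌊X / 346⌋₊ : ℝ) * Real.log 2 := mul_le_mul_of_nonneg_right h3 (by linarith)
  have h5 : (a : ℝ) ≤ (2 : ℝ) ^ ⌊X / 346⌋₊ :=
    (Real.log_le_log_iff ha0 (by positivity)).1 h4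
  exact_mod_cast h5

/-- **Two given bases, almost all pairs of exponents.** -/
theorem fixed_bases (N a b : ℕ) (ha : 2 ≤ a) (hb : 2 ≤ b)
    (haN : (a : ℝ) ≤ Real.exp ((N : ℝ) ^ (1 / 16 : ℝ) / 1000))
    (hbN : (b : ℝ) ≤ Real.exp ((N : ℝ) ^ (1 / 16 : ℝ) / 1000)) :
    (Set.ncard {p : ℕ × ℕ | 1 ≤ p.1 ∧ p.1 ≤ N ∧ 1 ≤ p.2 ∧ p.2 ≤ N ∧ ∃ c k : ℕ, 2 ≤ k ∧
      (a ^ p.1 + b ^ p.2 = c ^ k ∨ a ^ p.1 = b ^ p.2 + c ^ k ∨ b ^ p.2 = a ^ p.1 + c ^ k)} : ℝ) ≤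
      10 ^ 4 * (N : ℝ) ^ (15 / 8 : ℝ) := by
  obtain ⟨X, hX⟩ : ∃ X : ℝ, X = (N : ℝ) ^ (1 / 16 : ℝ) := ⟨_, rfl⟩
  rw [← hX] at haN hbN
  have hN0 : (0 : ℝ) ≤ N := Nat.cast_nonneg N
  have hX0 : 0 ≤ X := by rw [hX]; positivity
  have hX1 : 693 ≤ X := by
    have h1 : (2 : ℝ) ≤ a := by exact_mod_cast ha
    have h2 : Real.log 2 ≤ X / 1000 := by
      rw [← Real.log_exp (X / 1000)]
      exact Real.log_le_log (by norm_num) (h1.trans haN)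
    have := Real.log_two_gt_d9
    linarith
  have hXN : X ^ 16 = N := by
    rw [hX, ← Real.rpow_natCast, ← Real.rpow_mul hN0]
    norm_num
  obtain ⟨q, hq⟩ : ∃ q : ℕ, q = ⌊X ^ 2⌋₊ := ⟨_, rfl⟩
  have hqX : (q : ℝ) ≤ X ^ 2 := by rw [hq]; exact Nat.floor_le (by positivity)
  have hXq : X ^ 2 < q + 1 := by rw [hq]; exact Nat.lt_floor_add_one _
  have hX2 : (480000 : ℝ) ≤ X ^ 2 := by nlinarith
  have hq128 : 128 ≤ q := by
    have : (127 : ℝ) < q := by linarith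
    have : 127 < q := by exact_mod_cast this
    omega
  have hNq : N + 1 ≤ 2 ^ 8 * q ^ 8 := by
    have h1 : N < (q + 1) ^ 8 := by
      have h2 : (N : ℝ) < ((q : ℝ) + 1) ^ 8 := by
        rw [← hXN, show X ^ 16 = (X ^ 2) ^ 8 by ring]
        exact pow_lt_pow_left₀ hXq (by positivity) (by norm_num)
      exact_mod_cast h2
    have h3 : (q + 1) ^ 8 ≤ (2 * q) ^ 8 := Nat.pow_le_pow_left (by omega) 8
    rw [mul_pow] at h3
    omega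
  obtain ⟨L, hL⟩ : ∃ L : ℕ, L = ⌊X / 346⌋₊ := ⟨_, rfl⟩
  have hLX : (L : ℝ) ≤ X / 346 := by rw [hL]; exact Nat.floor_le (by positivity)
  have hL1 : 1 ≤ L := by
    rw [hL]; apply Nat.le_floor; push_cast; linarith
  have hLq : 10 ^ 10 * L ^ 4 ≤ q ^ 2 := by
    have h1 : (10 : ℝ) ^ 10 * (L : ℝ) ^ 4 ≤ (q : ℝ) ^ 2 := by
      have h2 : (L : ℝ) ^ 4 ≤ (X / 346) ^ 4 := pow_le_pow_left₀ (Nat.cast_nonneg L) hLX 4
      have h3 : (10 : ℝ) ^ 10 * (X / 346) ^ 4 ≤ 0.7 * (X ^ 2) ^ 2 := by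
        have : (X / 346) ^ 4 = (X ^ 2) ^ 2 / 14331920656 := by ring
        rw [this]
        have h4 : 0 ≤ (X ^ 2) ^ 2 := by positivity
        linarith
      have h5 : 0.9 * X ^ 2 ≤ q := by linarith
      have h6 : (0.9 * X ^ 2) ^ 2 ≤ (q : ℝ) ^ 2 := pow_le_pow_left₀ (by positivity) h5 2
      have h7 : 0 ≤ (X ^ 2) ^ 2 := by positivity
      nlinarith
    exact_mod_cast h1
  have haL : a ≤ 2 ^ L := by rw [hL]; exact le_two_pow hX1 (by omega) haN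
  have hbL : b ≤ 2 ^ L := by rw [hL]; exact le_two_pow hX1 (by omega) hbN
  have hmain := both_sides (N := N) ha hb hq128 hL1 haL hbL hLq hNq
  have hmainR := (Nat.cast_le (α := ℝ)).2 hmain
  refine hmainR.trans ?_
  push_cast
  have h1 : (q : ℝ) ^ 7 * N ≤ (N : ℝ) ^ (15 / 8 : ℝ) := by
    have h2 : (N : ℝ) ^ (15 / 8 : ℝ) = X ^ 14 * N := by
      have h3 : (15 / 8 : ℝ) = 1 / 16 * (14 : ℕ) + 1 := by norm_num
      have h4 : (0 : ℝ) < N := by rw [← hXN]; positivity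
      rw [h3, Real.rpow_add h4, Real.rpow_one, Real.rpow_mul hN0, ← hX, Real.rpow_natCast]
    rw [h2]
    apply mul_le_mul_of_nonneg_right _ hN0
    calc (q : ℝ) ^ 7 ≤ (X ^ 2) ^ 7 := pow_le_pow_left₀ (Nat.cast_nonneg q) hqX 7
      _ = X ^ 14 := by ring
  have h5 : 0 ≤ (N : ℝ) ^ (15 / 8 : ℝ) := by positivity
  calc (8192 : ℝ) * ((q : ℝ) ^ 7 * N) ≤ 8192 * (N : ℝ) ^ (15 / 8 : ℝ) :=
        mul_le_mul_of_nonneg_left h1 (by positivity)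
    _ ≤ 10 ^ 4 * (N : ℝ) ^ (15 / 8 : ℝ) := by
        apply mul_le_mul_of_nonneg_right _ h5
        norm_num

end Pool.Agent.Y411.FB
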